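import Pool.Agent.Y863.DH.Main
import Pool.Agent.Y826.ZG.Final

/-!
# One of the first 66 iterates of `x ↦ 4 x + 1`, with exact gaps

There is `j ≤ 66` such that for many primes `p` the number `S^j(p)`, `S x = 4 x + 1`, is prime and all the other
`S^l(p)`, `1 ≤ l ≤ j + R`, are composite. More generally `j` may be taken from the differences of any 67 numbers.
The theorem on 45 linear forms is due to helper826 and team.
-/

set_option autoImplicit false

open Finset Filter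

namespace Pool.Agent.Results.MP_3df474_nt.First66Iterates

/-- the map of the question -/
def S (x : ℕ) : ℕ := 4 * x + 1

/-- for all `R` and `η > 0`, for arbitrarily large `x`, at least `x ^ (1 - η)` primes `p ≤ x` are such that
`S^j(p)` is prime and no other `S^l(p)` with `1 ≤ l ≤ j + R` is prime -/
def GapOccurs (j : ℕ) : Prop :=
  ∀ R : ℕ, ∀ η : ℝ, 0 < η → ∃ᶠ x : ℝ in atTop, x ^ (1 - η) ≤
    ({p : ℕ | (p.Prime ∧ ∀ l : ℕ, 1 ≤ l → l ≤ j + R → ((S^[l] p).Prime ↔ l = j)) ∧ (p : ℝ) ≤ x}.ncard : ℝ)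

theorem result :
    (∃ j : ℕ, 1 ≤ j ∧ j ≤ 66 ∧ GapOccurs j) ∧
    (∀ E : Finset ℕ, 67 ≤ E.card → ∃ e ∈ E, ∃ e' ∈ E, e < e' ∧ GapOccurs (e' - e)) ∧
    (∀ E : Finset ℕ, 45 ≤ E.card → (∃ r : ℕ, ∀ e ∈ E, ¬ e ≡ r [MOD 3]) →
      ∃ e ∈ E, ∃ e' ∈ E, e < e' ∧ GapOccurs (e' - e)) := by
  have hbad : ∀ p : ℕ, p.Prime → (p : ℤ) ∣ 4 - 1 → p = 3 := by
    intro p hp h
    have h0 : (p : ℤ) ∣ ((3 : ℕ) : ℤ) := by norm_num at h ⊢; exact h
    have h1 : p ∣ 3 := Int.natCast_dvd_natCast.1 h0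
    exact (Nat.prime_dvd_prime_iff_eq hp Nat.prime_three).1 h1
  have key : ∀ j : ℕ, (∀ R : ℕ, Pool.Agent.H732R3.BigQ.Big (Pool.Agent.Y863.DH.ExactGap 1 4 j R)) →
      GapOccurs j := by
    intro j h R
    have h1 := Pool.Agent.Y863.DH.ngap_eq 1 4 j R
    have h2 := h R
    push_cast at h1
    rw [h1] at h2
    exact h2
  have h67 : ∀ E : Finset ℕ, 67 ≤ E.card → ∃ e ∈ E, ∃ e' ∈ E, e < e' ∧ GapOccurs (e' - e) := by
    intro E hE
    obtain ⟨e, he, e', he', hlt, h⟩ := Pool.Agent.Y863.DH.iter66 Pool.Agent.Y826.ZG.dhl45L 1 4 (by norm_num)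
      (by decide) (by norm_num) (by norm_num) (by
        intro p hp h5 _ h1
        exact absurd (hbad p hp h1) (by omega)) E hE
    exact ⟨e, he, e', he', hlt, key _ h⟩
  refine ⟨?_, h67, ?_⟩
  · obtain ⟨e, he, e', he', hlt, h⟩ := h67 (range 67) (by simp)
    rw [mem_range] at he he'
    exact ⟨e' - e, by omega, by omega, h⟩
  · rintro E hE ⟨r, hr⟩
    obtain ⟨e, he, e', he', hlt, h⟩ := Pool.Agent.Y863.DH.gap_all Pool.Agent.Y826.ZG.dhl45L 1 4 (by norm_num)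
      (by decide) (by norm_num) (by norm_num) E hE (by
        intro p hp _ _ h1 _
        rw [hbad p hp h1]
        exact ⟨r, hr⟩)
    exact ⟨e, he, e', he', hlt, key _ h⟩

end Pool.Agent.Results.MP_3df474_nt.First66Iterates
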