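import Pool.Agent.Y827.GS.Iso

/-!
# Isolated primes of the orbits of `x ↦ 4 x + 1`, joined by five ninths of the times

`S x = 4 x + 1`. For every `ε > 0` there is `J` such that for every `R` there is `M > R`
such that for EVERY multiple `N` of `M` there is `L` such that among any `T ≥ L` consecutive multiples
`j` of `N` at least `(5/9 - ε) T` have the following property. For at least `x ^ (1 - η)` primes `p ≤ x`,
for every `η > 0` and arbitrarily large `x`, the number `S^j(p)` is prime, at most `J` of the numbers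
`S^l(p)`, `0 < l < j`, are prime, and `p` and `S^j(p)` are both isolated: none of the `R` numbers which
follow `p` or `S^j(p)` in the orbit is prime, none of the `R` numbers which precede `S^j(p)` is prime, and
`p` is none of the numbers `S(q), ..., S^R(q)` for any prime `q`.

Proof: the coloured Maynard-Tao theorem with the constant `18 / 5` for linear forms
(`Pool.Agent.Y827.GS.quarterG`: linear sieve with well-factorable weights of level `5 / 9`, sums of
Kloosterman sums), congruences which make the values at all other times composite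
(`Pool.Agent.W218.OG.block`), and helper142's theorem on sets of differences of many classes
(`Pool.Agent.W142.TB.s_maiB`).
-/

set_option autoImplicit false

namespace Pool.Agent.Results.MP_3df474_nt.FiveNinthsOfIterates

open Filter

/-- `x ↦ 4 x + 1` -/
def S (x : ℕ) : ℕ := 4 * x + 1

theorem result (ε : ℝ) (hε : 0 < ε) : ∃ J : ℕ, ∀ R : ℕ, ∃ M : ℕ, R < M ∧ ∀ N : ℕ, 0 < N → M ∣ N →
    ∃ L : ℕ, ∀ T : ℕ, L ≤ T → ∀ u : ℕ,
      (5 / 9 - ε) * (T : ℝ) ≤ ({k : ℕ | u < k ∧ k ≤ u + T ∧ ∀ η : ℝ, 0 < η → ∃ᶠ x : ℝ in atTop,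
        x ^ (1 - η) ≤ ({p : ℕ | (p : ℝ) ≤ x ∧ p.Prime ∧ (S^[N * k] p).Prime ∧
          {l : ℕ | 0 < l ∧ l < N * k ∧ (S^[l] p).Prime}.ncard ≤ J ∧
          ∀ l, 0 < l → l ≤ R → ¬ (S^[l] p).Prime ∧ ¬ (S^[N * k + l] p).Prime ∧
            ¬ (S^[N * k - l] p).Prime ∧ ∀ q : ℕ, q.Prime → S^[l] q ≠ p}.ncard : ℝ)}.ncard : ℝ) := by
  obtain ⟨J, h⟩ := Pool.Agent.Y827.GS.transferIG ε hε
  refine ⟨J, h 4 1 3 (by norm_num) one_ne_zero isCoprime_one_left
    (by norm_num) (fun p _ h => ?_) (fun p j => S^[j] p) (fun p j _ => ?_)⟩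
  · have h1 : p ∣ 3 := by simpa using h
    rw [one_mul]
    exact_mod_cast h1
  · show ((S^[j] p : ℕ) : ℤ) = _
    induction j with
    | zero => rfl
    | succ j ih =>
      rw [Function.iterate_succ_apply', Function.iterate_succ_apply', ← ih]
      show ((4 * S^[j] p + 1 : ℕ) : ℤ) = ((4 : ℕ) : ℤ) * (S^[j] p : ℕ) + 1
      push_cast
      ring

end Pool.Agent.Results.MP_3df474_nt.FiveNinthsOfIterates
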