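import Pool.Agent.TH977.PW.Inst

set_option autoImplicit false

/-!
# Regular neighbourhoods of the primes `p` with `4 p + 1` prime

Let `R r` be the set of the `n` for which all prime factors of `n` and of `4 n + 1` are larger than
`n ^ (1 / r)`; it contains all primes `p` with `4 p + 1` prime. For an ARBITRARY subset `A` of `R r`,
in every short interval all but a small proportion of the elements of `A` are regular points of `A`.
-/

namespace Pool.Agent.Results.MP_3df474_nt.HereditaryPoints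

open Finset Filter
open Pool.Agent.TH977.PW (N Irregular)

/-- All prime factors of `n` and of `4 n + 1` are larger than `n ^ (1 / r)`. -/
def R (r : ℕ) : Set ℕ :=
  {n | (∀ p : ℕ, p.Prime → p ∣ n → (n : ℝ) ^ (1 / (r : ℝ)) < (p : ℝ)) ∧
    ∀ p : ℕ, p.Prime → p ∣ 4 * n + 1 → (n : ℝ) ^ (1 / (r : ℝ)) < (p : ℝ)}

lemma adm (p : ℕ) (hp : p.Prime) :
    ∃ m : ℕ, ¬ p ∣ m ∧ ∀ _ : Fin 1, ¬ (p : ℤ) ∣ ((4 : ℕ) : ℤ) * (m : ℤ) + 1 := by
  by_cases h5 : p = 5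
  · subst h5
    exact ⟨2, by norm_num, fun _ => by norm_num⟩
  · refine ⟨1, fun h => hp.one_lt.ne' (Nat.dvd_one.1 h), fun _ h => ?_⟩
    have h1 : (p : ℤ) ∣ ((5 : ℕ) : ℤ) := by
      have h2 : ((4 : ℕ) : ℤ) * ((1 : ℕ) : ℤ) + 1 = ((5 : ℕ) : ℤ) := by norm_num
      rw [← h2]
      exact h
    rw [Int.natCast_dvd_natCast] at h1
    exact h5 ((Nat.prime_dvd_prime_iff_eq hp (by norm_num)).1 h1)

/-- **Regular neighbourhoods of the primes `p` with `4 p + 1` prime.** -/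
theorem result (θ : ℝ) (hθ : 0 < θ) (hθ1 : θ ≤ 1) :
    ∃ r₀ : ℕ, 2 ≤ r₀ ∧ ∀ r : ℕ, r₀ ≤ r →
      (∀ p : ℕ, p.Prime → (4 * p + 1).Prime → p ∈ R r) ∧
      (∃ κ : ℝ, 0 < κ ∧ ∀ᶠ X : ℕ in atTop, κ * X / Real.log X ^ 2 ≤
          N {p | p ∈ R r ∧ p.Prime ∧ (4 * p + 1).primeFactorsList.length ≤ r} X (2 * X)) ∧
      ∀ ε : ℝ, 0 < ε → ∃ c : ℝ, 0 < c ∧ ∀ δ : ℝ, 0 < δ → ∃ B : ℕ,
        ∀ᶠ X : ℕ in atTop, ∀ Y : ℕ, (X : ℝ) ^ θ ≤ Y → 2 * Y ≤ X → ∀ A : Set ℕ, A ⊆ R r →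
          (N (Irregular A 2 c δ B X Y) X (X + Y) : ℝ) ≤ ε * Y / Real.log X ^ 2 := by
  have e1 : ∀ m : ℕ, ((4 : ℕ) : ℤ) * (m : ℤ) + 1 = ((4 * m + 1 : ℕ) : ℤ) := by
    intro m
    push_cast
    ring
  obtain ⟨r0, hr0, h⟩ := Pool.Agent.TH977.PW.final_lin_prime (ι := Fin 1) (fun _ => 4) (fun _ => 1)
    (fun _ => by norm_num) (fun _ => isCoprime_one_right) (fun _ _ _ _ => Subsingleton.elim _ _)
    (fun _ => by norm_num) adm
    R (fun r => {p | p ∈ R r ∧ p.Prime ∧ (4 * p + 1).primeFactorsList.length ≤ r}) 2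
    (by rw [Fintype.card_fin])
    (fun r m h2r hm => by
      refine ⟨hm.1, fun _ p hp hd => hm.2 p hp ?_⟩
      rw [e1 m] at hd
      exact Int.natCast_dvd_natCast.1 hd)
    (fun r m h2r hm h1 h2 => by
      refine ⟨⟨fun p hp hd => Pool.Agent.TH977.PW.rpow_lt_dvd r m p h2r hm hp hd,
        fun p hp hd => h1 0 p hp ?_⟩, hm, ?_⟩
      · rw [e1 m]
        exact Int.natCast_dvd_natCast.2 hd
      · have h3 := h2 0
        rw [e1 m, Int.natAbs_natCast] at h3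
        exact h3) θ hθ hθ1
  refine ⟨r0, hr0, fun r hr => ⟨?_, (h r hr).1, (h r hr).2⟩⟩
  intro n hn hn2
  have h2r : 2 ≤ r := hr0.trans hr
  refine ⟨fun p hp hd => Pool.Agent.TH977.PW.rpow_lt_dvd r n p h2r hn hp hd, fun p hp hd => ?_⟩
  rw [(Nat.prime_dvd_prime_iff_eq hp hn2).1 hd]
  exact Pool.Agent.TH977.PW.rpow_lt_of_le r n _ h2r hn.two_le (by omega)

end Pool.Agent.Results.MP_3df474_nt.HereditaryPoints
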